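import Pool.Agent.K1H34.HYC.Stm2

/-! Project HYC, piece BASE: the decomposition before attaching (helper66). -/

set_option autoImplicit false

namespace Pool.Agent.K1H66.HYC

open Classical Finset Pool.Agent.K1H34.HYC

/-- one map which agrees with `Q i` on `K i` -/
theorem exists_q {V : Type} (I : Finset V) (K : V → Finset V)
    (hd : ∀ i ∈ I, ∀ j ∈ I, i ≠ j → Disjoint (K i) (K j)) (Q : V → V → V) :
    ∃ q : V → V, (∀ i ∈ I, ∀ v ∈ K i, q v = Q i v) ∧ ∀ v, (∀ i ∈ I, v ∉ K i) → q v = v := by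
  refine ⟨fun v => if h : ∃ i, i ∈ I ∧ v ∈ K i then Q h.choose v else v, ?_, ?_⟩
  · intro i hi v hv
    have h : ∃ i, i ∈ I ∧ v ∈ K i := ⟨i, hi, hv⟩
    have h1 := h.choose_spec
    have h2 : h.choose = i := by
      by_contra hne
      exact Finset.disjoint_left.1 (hd _ h1.1 _ hi hne) h1.2 hv
    simp only [dif_pos h]
    rw [h2]
  · intro v hv
    have h : ¬ ∃ i, i ∈ I ∧ v ∈ K i := fun ⟨i, hi, hv'⟩ => hv i hi hv'
    simp only [dif_neg h]

theorem dg_split {V : Type} [Fintype V] (G : SimpleGraph V) (A : Finset V) (w : V) :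
    dg G univ w = dg G A w + dg G (univ \ A) w := by
  unfold dg
  rw [← Finset.card_union_of_disjoint]
  · congr 1
    ext y
    simp only [mem_filter, mem_union, mem_sdiff, mem_univ, true_and]
    tauto
  · refine Finset.disjoint_left.2 fun y h1 h2 => ?_
    simp only [mem_filter, mem_sdiff, mem_univ, true_and] at h1 h2
    exact h2.1 h1.1

theorem np_bound {V : Type} [Fintype V] (G : SimpleGraph V) (S : Finset V) (v : V) :
    dg G S v * dg G S v ≤ (np G S v).card + (univ.filter (fun z : V × V => G.Adj v z.1 ∧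
      G.Adj v z.2 ∧ G.Adj z.1 z.2)).card + dg G S v := by
  have h1 : (S.filter (fun y => G.Adj v y)) ×ˢ (S.filter (fun y => G.Adj v y)) ⊆
      (np G S v ∪ univ.filter (fun z : V × V => G.Adj v z.1 ∧ G.Adj v z.2 ∧ G.Adj z.1 z.2)) ∪
        (S.filter (fun y => G.Adj v y)).image (fun y => (y, y)) := by
    intro z hz
    simp only [mem_product, mem_filter] at hz
    simp only [mem_union, mem_image, mem_filter, np, mem_product, mem_univ, true_and]
    by_cases h : z.1 = z.2
    · exact Or.inr ⟨z.1, hz.1, by ext <;> simp [h]⟩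
    · by_cases h' : G.Adj z.1 z.2
      · exact Or.inl (Or.inr ⟨hz.1.2, hz.2.2, h'⟩)
      · exact Or.inl (Or.inl ⟨⟨hz.1.1, hz.2.1⟩, hz.1.2, hz.2.2, h, h'⟩)
  have h2 := Finset.card_le_card h1
  rw [card_product] at h2
  refine h2.trans ((card_union_le _ _).trans ?_)
  refine Nat.add_le_add (card_union_le _ _) card_image_le

theorem t_BASE : S_CLUS → S_MATCH → S_BASE := by
  intro hC hM
  obtain ⟨e, he⟩ : ∃ e : ℝ, e = 1 / 2 ^ 300 := ⟨_, rfl⟩
  have he0 : 0 < e := by rw [he]; positivity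
  have he1 : e ≤ 1 / 2 ^ 20 := by
    rw [he]
    exact one_div_le_one_div_of_le (by positivity) (pow_le_pow_right₀ (by norm_num) (by norm_num))
  have he2 : e ≤ 1 / 1000000 := he1.trans (by norm_num)
  obtain ⟨δ, hδ⟩ : ∃ δ : ℝ, δ = e * e := ⟨_, rfl⟩
  have hδ0 : 0 < δ := by rw [hδ]; positivity
  have hδe : δ ≤ e / 1000000 := by rw [hδ]; nlinarith
  have p602 : (1 : ℝ) / 2 ^ 602 = δ / 4 := by
    rw [hδ, he, show (602 : ℕ) = 300 + 300 + 2 by norm_num, pow_add, pow_add]
    field_simp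
    norm_num
  have p590 : (1 : ℝ) / 2 ^ 590 = 1024 * δ := by
    have h1 : (2 : ℝ) ^ 300 * 2 ^ 300 = 2 ^ 590 * 1024 := by
      rw [← pow_add, show (1024 : ℝ) = 2 ^ 10 by norm_num, ← pow_add]
    rw [hδ, he, div_mul_div_comm, h1, one_mul]
    field_simp
  have p296 : (1 : ℝ) / 2 ^ 296 = 16 * e := by
    have h1 : (2 : ℝ) ^ 300 = 2 ^ 296 * 16 := by
      rw [show (16 : ℝ) = 2 ^ 4 by norm_num, ← pow_add]
    rw [he, h1]
    field_simp
  refine ⟨2 ^ 602, fun D hD V _ G hG => ?_⟩
  have hD1 : 1 ≤ D := le_trans (Nat.one_le_pow _ _ (by norm_num)) hD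
  have hDr : (1 : ℝ) ≤ D := by exact_mod_cast hD1
  have hD0 : (0 : ℝ) < D := by linarith
  have hDδ : 4 ≤ δ * D := by
    have h1 : ((2 : ℝ) ^ 602) ≤ D := by exact_mod_cast hD
    have h2 : δ = 4 / 2 ^ 602 := by
      have : (4 : ℝ) / 2 ^ 602 = 4 * (1 / 2 ^ 602) := by ring
      rw [this, p602]; ring
    rw [h2, div_mul_eq_mul_div, le_div_iff₀ (by positivity)]
    linarith
  obtain ⟨I, K, c1, c2, c3, c4, c5, c6⟩ := hC V G D δ hD1 hδ0 (by linarith) hG
  have hK : ∀ i ∈ I, ∃ Q : V → V, (∀ v, v ∉ K i → Q v = v) ∧ (∀ v ∈ K i, Q v ∈ K i) ∧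
      (∀ v, Q (Q v) = Q v) ∧ (∀ v, ¬ G.Adj v (Q v)) ∧
      (∀ u, (univ.filter (fun v => Q v = u)).card ≤ 2) ∧
      (univ.filter (fun v => Q v ≠ v)).card = (K i).card - (D + 1) := by
    intro i hi
    refine hM V G (K i) D (fun v hv => ?_) ?_
    · exact le_trans (by rw [dg_split G (K i) v]; omega) (hG v)
    · have h1 : ((K i).card : ℝ) ≤ 2 * (D + 1) := by
        refine (c3 i hi).2.trans ?_
        nlinarith
      have h2 : (K i).card ≤ 2 * (D + 1) := by exact_mod_cast h1
      omega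
  choose! Q hQ using hK
  obtain ⟨q, hq1, hq2⟩ := exists_q I K c1 Q
  have uniq : ∀ i ∈ I, ∀ j ∈ I, ∀ v, v ∈ K i → v ∈ K j → i = j := by
    intro i hi j hj v h1 h2
    by_contra hne
    exact Finset.disjoint_left.1 (c1 i hi j hj hne) h1 h2
  have hqK : ∀ i ∈ I, ∀ v, q v ∈ K i ↔ v ∈ K i := by
    intro i hi v
    constructor
    · intro h
      by_cases hv : ∃ j ∈ I, v ∈ K j
      · obtain ⟨j, hj, hvj⟩ := hv
        have h1 : q v ∈ K j := by rw [hq1 j hj v hvj]; exact (hQ j hj).2.1 v hvj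
        rw [uniq i hi j hj _ h h1]; exact hvj
      · push Not at hv
        rw [hq2 v hv] at h; exact h
    · intro h
      rw [hq1 i hi v h]; exact (hQ i hi).2.1 v h
  have hqq : ∀ v, q (q v) = q v := by
    intro v
    by_cases hv : ∃ j ∈ I, v ∈ K j
    · obtain ⟨j, hj, hvj⟩ := hv
      have h1 : q v ∈ K j := (hqK j hj v).2 hvj
      rw [hq1 j hj _ h1, hq1 j hj v hvj]
      exact (hQ j hj).2.2.1 v
    · push Not at hv
      rw [hq2 v hv, hq2 v hv]
  have hqadj : ∀ v, ¬ G.Adj v (q v) := by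
    intro v
    by_cases hv : ∃ j ∈ I, v ∈ K j
    · obtain ⟨j, hj, hvj⟩ := hv
      rw [hq1 j hj v hvj]
      exact (hQ j hj).2.2.2.1 v
    · push Not at hv
      rw [hq2 v hv]; exact G.loopless.irrefl v
  -- a fibre has at most two elements
  have hfib : ∀ u, (univ.filter (fun v => q v = u)).card ≤ 2 := by
    intro u
    by_cases hu : ∃ j ∈ I, u ∈ K j
    · obtain ⟨j, hj, huj⟩ := hu
      refine le_trans (Finset.card_le_card ?_) ((hQ j hj).2.2.2.2.1 u)
      intro v hv
      simp only [mem_filter, mem_univ, true_and] at hv ⊢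
      have h1 : v ∈ K j := (hqK j hj v).1 (by rw [hv]; exact huj)
      rw [← hq1 j hj v h1]; exact hv
    · push Not at hu
      refine le_trans (Finset.card_le_card (t := {u}) ?_) (by simp)
      intro v hv
      simp only [mem_filter, mem_univ, true_and] at hv
      rw [mem_singleton]
      have h1 : ∀ i ∈ I, v ∉ K i := fun i hi h => hu i hi (by rw [← hv]; exact (hqK i hi v).2 h)
      rw [← hv, hq2 v h1]
  obtain ⟨S, hS⟩ : ∃ S : Finset V, ∀ v, v ∈ S ↔ (∀ i ∈ I, v ∉ K i) ∧
      ∀ i ∈ I, (dg G (K i) v : ℝ) ≤ D / 2 ^ 60 :=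
    ⟨univ.filter (fun v => (∀ i ∈ I, v ∉ K i) ∧ ∀ i ∈ I, (dg G (K i) v : ℝ) ≤ D / 2 ^ 60),
      fun v => by simp⟩
  obtain ⟨Z, hZ⟩ : ∃ Z : Finset V, ∀ v, v ∈ Z ↔ ((∀ i ∈ I, v ∉ K i) ∧ v ∉ S) ∨
      ∃ i ∈ I, v ∈ K i ∧ ((D : ℝ) / 2 ^ 300 < dg G (univ \ K i) v ∨
        ∃ v', v' ≠ v ∧ q v' = q v) :=
    ⟨univ.filter (fun v => ((∀ i ∈ I, v ∉ K i) ∧ v ∉ S) ∨
      ∃ i ∈ I, v ∈ K i ∧ ((D : ℝ) / 2 ^ 300 < dg G (univ \ K i) v ∨
        ∃ v', v' ≠ v ∧ q v' = q v)), fun v => by simp only [mem_filter, mem_univ, true_and]⟩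
  have hmoved : ∀ i ∈ I, ∀ v ∈ K i, q v ≠ v → v ∈ Z := fun i hi v hv h =>
    (hZ v).2 (Or.inr ⟨i, hi, hv, Or.inr ⟨q v, h, hqq v⟩⟩)
  have hqZ : ∀ z ∈ Z, q z ∈ Z := by
    intro z hz
    by_cases h : q z = z
    · rw [h]; exact hz
    · rcases (hZ z).1 hz with ⟨h1, _⟩ | ⟨i, hi, hzi, _⟩
      · exact absurd (hq2 z h1) h
      · exact (hZ _).2 (Or.inr ⟨i, hi, (hqK i hi z).2 hzi, Or.inr ⟨z, Ne.symm h, (hqq z).symm⟩⟩)
  -- the number of moved points of a cluster
  have hmv : ∀ i ∈ I, ((K i).filter (fun v => q v ≠ v)).card = (K i).card - (D + 1) := by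
    intro i hi
    rw [← (hQ i hi).2.2.2.2.2]
    congr 1
    ext v
    simp only [mem_filter, mem_univ, true_and]
    constructor
    · rintro ⟨h1, h2⟩
      rw [← hq1 i hi v h1]; exact h2
    · intro h
      have h1 : v ∈ K i := by
        by_contra hv
        exact h ((hQ i hi).1 v hv)
      exact ⟨h1, by rw [hq1 i hi v h1]; exact h⟩
  refine ⟨I, K, S, Z, q, ?_⟩
  constructor
  · exact c1
  · refine Finset.disjoint_left.2 fun v h1 h2 => ?_
    rcases (hZ v).1 h2 with ⟨_, h⟩ | ⟨i, hi, hv, _⟩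
    · exact h h1
    · exact ((hS v).1 h1).1 i hi hv
  · intro i hi
    exact Finset.disjoint_left.2 fun v h1 h2 => ((hS v).1 h1).1 i hi h2
  · intro v h1 h2
    by_contra hcon
    push Not at hcon
    exact h2 ((hZ v).2 (Or.inl ⟨hcon, h1⟩))
  · -- sparse
    intro v hv
    rw [p602]
    by_cases hd : (dg G S v : ℝ) ≤ (1 - δ / 4) * D
    · exact Or.inl hd
    · right
      push Not at hd
      have h1 := c2 v ((hS v).1 hv).1
      have h2 : (dg G S v : ℝ) * dg G S v ≤ (np G S v).card + (univ.filter (fun z : V × V =>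
          G.Adj v z.1 ∧ G.Adj v z.2 ∧ G.Adj z.1 z.2)).card + dg G S v := by
        exact_mod_cast np_bound G S v
      have h3 : (dg G S v : ℝ) ≤ D := by
        have : dg G S v ≤ D := le_trans (by rw [dg_split G S v]; omega) (hG v)
        exact_mod_cast this
      have h4 : (1 - δ / 4) * D * ((1 - δ / 4) * D) ≤ (dg G S v : ℝ) * dg G S v := by
        have h5 : 0 ≤ (1 - δ / 4) * (D : ℝ) := mul_nonneg (by linarith) hD0.le
        exact mul_le_mul hd.le hd.le h5 (by linarith)
      have h6 : (1 - δ / 2) * (D : ℝ) ^ 2 ≤ (1 - δ / 4) * D * ((1 - δ / 4) * D) := by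
        nlinarith [sq_nonneg (δ * D)]
      have h7 : (D : ℝ) ≤ δ / 4 * (D : ℝ) ^ 2 := by nlinarith
      have h8 : (D : ℝ) ^ 2 / 2 ^ 602 = δ / 4 * (D : ℝ) ^ 2 := by
        rw [← p602]; ring
      rw [h8]
      nlinarith
  · intro v hv i hi
    exact ((hS v).1 hv).2 i hi
  · intro z hz
    exact ⟨hqZ z hz, hqq z⟩
  · intro z _ i hi
    exact hqK i hi z
  · intro z _ h
    exact hq2 z h
  · -- indep
    intro z _ z' _ h hadj
    have hne : z ≠ z' := hadj.ne
    by_cases h1 : q z = z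
    · apply hqadj z'
      rw [← h, h1]; exact hadj.symm
    · by_cases h2 : q z' = z'
      · apply hqadj z
        rw [h, h2]; exact hadj
      · have h3 := hfib (q z)
        have h4 : ({z, z', q z} : Finset V) ⊆ univ.filter (fun v => q v = q z) := by
          intro v hv
          simp only [mem_insert, mem_singleton] at hv
          simp only [mem_filter, mem_univ, true_and]
          rcases hv with rfl | rfl | rfl
          · rfl
          · exact h.symm
          · exact hqq z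
        have h5 := (Finset.card_le_card h4).trans h3
        rw [Finset.card_eq_three.2 ⟨z, z', q z, hne, fun h => h1 h.symm, fun h' => h2 (by
          rw [← h]; exact h'.symm), rfl⟩] at h5
        omega
  · -- size
    intro u
    refine le_trans (Finset.card_le_card ?_) (hfib u)
    intro v hv
    simp only [cls, mem_filter, mem_univ, true_and] at hv ⊢
    exact hv.2
  · -- big
    intro z hz h
    rcases (hZ z).1 hz with ⟨_, h1⟩ | ⟨i, hi, hzi, _⟩
    · by_contra hcon
      push Not at hcon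
      exact h1 ((hS z).2 ⟨h, hcon⟩)
    · exact absurd hzi (h i hi)
  · -- inside
    intro i hi w hw
    have h1 := c4 i hi w hw
    have h2 : ((dg G (K i) w : ℕ) : ℝ) + dg G (univ \ K i) w ≤ D := by
      have := hG w
      rw [dg_split G (K i) w] at this
      exact_mod_cast this
    nlinarith
  · -- outside
    intro i hi w hw
    have h1 := c5 i hi w hw
    nlinarith
  · -- card
    intro i hi
    have h1 := (c3 i hi).1
    nlinarith
  · -- cnt
    intro i hi
    have hA : (((K i).filter (fun v => v ∈ Z)).image q) ⊆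
        (K i).filter (fun v => v ∈ Z ∧ q v = v) := by
      intro v hv
      simp only [mem_image, mem_filter] at hv ⊢
      obtain ⟨w, ⟨h1, h2⟩, rfl⟩ := hv
      exact ⟨(hqK i hi w).2 h1, hqZ w h2, hqq w⟩
    have h1 := Finset.card_le_card hA
    have h2 : ((K i).filter (fun v => v ∉ Z)).card + ((K i).filter (fun v => v ∈ Z ∧ q v = v)).card +
        ((K i).filter (fun v => q v ≠ v)).card ≤ (K i).card := by
      rw [← Finset.card_union_of_disjoint, ← Finset.card_union_of_disjoint]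
      · refine Finset.card_le_card ?_
        intro v hv
        simp only [mem_union, mem_filter] at hv
        tauto
      · refine Finset.disjoint_left.2 fun v h3 h4 => ?_
        simp only [mem_union, mem_filter] at h3 h4
        rcases h3 with h3 | h3
        · exact h3.2 (hmoved i hi v h3.1 h4.2)
        · exact h4.2 h3.2.2
      · refine Finset.disjoint_left.2 fun v h3 h4 => ?_
        simp only [mem_filter] at h3 h4
        exact h3.2 h4.2.1
    rw [hmv i hi] at h2
    omega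
  · -- few
    intro i hi
    have h1 : (K i).filter (fun v => v ∈ Z) ⊆
        ((K i).filter (fun v => (D : ℝ) / 2 ^ 300 < dg G (univ \ K i) v)) ∪
          (((K i).filter (fun v => q v ≠ v)) ∪ ((K i).filter (fun v => q v ≠ v)).image q) := by
      intro v hv
      simp only [mem_filter] at hv
      obtain ⟨hv1, hv2⟩ := hv
      simp only [mem_union, mem_image, mem_filter]
      rcases (hZ v).1 hv2 with ⟨h, _⟩ | ⟨j, hj, hvj, h⟩
      · exact absurd hv1 (h i hi)
      · have hij := uniq i hi j hj v hv1 hvj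
        subst hij
        rcases h with h | ⟨v', h3, h4⟩
        · exact Or.inl ⟨hv1, h⟩
        · by_cases h5 : q v = v
          · refine Or.inr (Or.inr ⟨v', ⟨?_, ?_⟩, by rw [h4, h5]⟩)
            · exact (hqK i hi v').1 (by rw [h4, h5]; exact hv1)
            · rw [h4, h5]; exact h3.symm
          · exact Or.inr (Or.inl ⟨hv1, h5⟩)
    have h2 := (Finset.card_le_card h1).trans ((card_union_le _ _).trans
      (Nat.add_le_add_left ((card_union_le _ _).trans (Nat.add_le_add_left card_image_le _)) _))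
    rw [hmv i hi] at h2
    have h3 : (((K i).card - (D + 1) : ℕ) : ℝ) ≤ 2 * δ * D := by
      rcases le_total (K i).card (D + 1) with h | h
      · rw [Nat.sub_eq_zero_of_le h]
        simp only [Nat.cast_zero]
        positivity
      · rw [Nat.cast_sub h]
        have := (c3 i hi).2
        push_cast
        nlinarith
    have h4 : (((K i).filter (fun v => (D : ℝ) / 2 ^ 300 < dg G (univ \ K i) v)).card : ℝ) *
        (D * e) ≤ 7 * δ * D ^ 2 := by
      refine le_trans ?_ (c6 i hi)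
      calc (((K i).filter (fun v => (D : ℝ) / 2 ^ 300 < dg G (univ \ K i) v)).card : ℝ) * (D * e)
          = ∑ v ∈ (K i).filter (fun v => (D : ℝ) / 2 ^ 300 < dg G (univ \ K i) v), (D * e) := by
            rw [sum_const, nsmul_eq_mul]
        _ ≤ ∑ v ∈ (K i).filter (fun v => (D : ℝ) / 2 ^ 300 < dg G (univ \ K i) v),
            (dg G (univ \ K i) v : ℝ) := by
            refine sum_le_sum fun v hv => ?_
            have h5 := (mem_filter.1 hv).2
            have h6 : (D : ℝ) * e = D / 2 ^ 300 := by rw [he]; ring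
            rw [h6]; exact h5.le
        _ ≤ _ := sum_le_sum_of_subset_of_nonneg (filter_subset _ _)
            (fun v _ _ => Nat.cast_nonneg _)
    have h5 : (((K i).filter (fun v => (D : ℝ) / 2 ^ 300 < dg G (univ \ K i) v)).card : ℝ) ≤
        7 * e * D := by
      have h6 : 7 * δ * (D : ℝ) ^ 2 = 7 * e * D * (D * e) := by rw [hδ]; ring
      rw [h6] at h4
      exact le_of_mul_le_mul_right h4 (by positivity)
    have h6 : (((K i).filter (fun v => v ∈ Z)).card : ℝ) ≤
        (((K i).filter (fun v => (D : ℝ) / 2 ^ 300 < dg G (univ \ K i) v)).card : ℝ) +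
          ((((K i).card - (D + 1) : ℕ) : ℝ) + (((K i).card - (D + 1) : ℕ) : ℝ)) := by
      exact_mod_cast h2
    have h7 : (D : ℝ) / 2 ^ 296 = 16 * e * D := by rw [← p296]; ring
    rw [h7]
    nlinarith
  · -- out
    intro i hi v hv hvZ
    by_contra hcon
    push Not at hcon
    exact hvZ ((hZ v).2 (Or.inr ⟨i, hi, hv, Or.inl hcon⟩))
  · -- tot
    intro i hi
    refine (c6 i hi).trans ?_
    have h7 : (D : ℝ) ^ 2 / 2 ^ 590 = 1024 * δ * D ^ 2 := by rw [← p590]; ring
    rw [h7]
    have : 0 ≤ δ * (D : ℝ) ^ 2 := by positivity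
    nlinarith

end Pool.Agent.K1H66.HYC
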